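import Pool.Agent.H46.CH.AS

/-!
# Row SMn: frequent kinds are rigid
-/

set_option autoImplicit false

namespace Pool.Agent.H72.CHE

open Classical Pool.Agent.H8.VR Pool.Agent.H69.VR Pool.Agent.H46.CH

theorem pf_SMn : Pool.Agent.H46.CH.T_SMn := by
  intro N Q L T O C _ _ _ _ V hS s c hRD κ hH
  by_contra hκ
  obtain ⟨A, hA, lam, th, X, E, col, t, -, hG, -, hcol, -, -, hc, -⟩ := hRD
  have h1 := hS A lam th s X col hG
  have h2 : kc c κ ≤ num fun a => a ∈ X ∧ ¬ V.rg (col a) := by
    unfold kc fs
    have e0 : ∀ P P' : A → Prop, (∀ a, P a ↔ P' a) → ∀ (i1 : DecidablePred P)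
        (i2 : DecidablePred P'), (@Finset.filter A P i1 Finset.univ).card =
          (@Finset.filter A P' i2 Finset.univ).card := by
      intro P P' hPP i1 i2
      refine congrArg Finset.card ?_
      ext a
      rw [Finset.mem_filter, Finset.mem_filter, hPP a]
    have e1 : ∀ σ, c σ = (Finset.univ.filter (fun a => a ∈ X ∧ a ∉ E ∧ t a = σ)).card :=
      fun σ => by
        rw [hc σ]
        exact e0 _ _ (fun a => Iff.rfl) _ _
    simp only [e1]
    rw [← Finset.card_biUnion]
    · unfold num
      refine Finset.card_le_card ?_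
      intro a ha
      rw [Finset.mem_biUnion] at ha
      obtain ⟨σ, hσ, ha⟩ := ha
      have hσ := (Finset.mem_filter.1 hσ)
      have ha := (Finset.mem_filter.1 ha)
      simp only [Finset.mem_filter, Finset.mem_univ, true_and]
      refine ⟨ha.2.1, ?_⟩
      have h3 := (hcol a ha.2.1).1
      rw [← h3, ha.2.2.2]
      have h4 : σ.1 = κ.1 := by rw [← hσ.2]
      rw [h4]
      exact hκ
    · intro σ _ σ' _ hne
      rw [Function.onFun, Finset.disjoint_left]
      intro a ha ha'
      rw [Finset.mem_filter] at ha ha'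
      exact hne (ha.2.2.2.symm.trans ha'.2.2.2)
  omega

end Pool.Agent.H72.CHE
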